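import Pool.Agent.R43.BishopCore

/-!
# MP_8e2e71_co: domination number of rectangular bishops graphs

For `2k < n` every dominating set of the `k × n` bishops graph has at least `2 ⌊(k + n) / 3⌋` squares. With
the known upper bound this proves the formula `γ(B_{k,n}) = 2 ⌊(k + n) / 3⌋` of the question.
-/

set_option autoImplicit false

namespace Pool.Agent.Results.MP_8e2e71_co.LowerBound

open Pool.Agent.R43.BishopCore

/-- The bishops graph `B_{k,n}`: two distinct squares of the `k × n` board are adjacent when they lie on a
common diagonal. -/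
def bishops (k n : ℕ) : SimpleGraph (Fin k × Fin n) where
  Adj p q := p ≠ q ∧ |(p.1.val : ℤ) - q.1.val| = |(p.2.val : ℤ) - q.2.val|
  symm := ⟨fun p q h => ⟨h.1.symm, by rw [abs_sub_comm, h.2, abs_sub_comm]⟩⟩
  loopless := ⟨fun p h => h.1 rfl⟩

/-- `D` is a dominating set of `G`: every vertex not in `D` is adjacent to a vertex of `D`. -/
def Dominating {V : Type} (G : SimpleGraph V) (D : Finset V) : Prop := ∀ v, v ∉ D → ∃ u ∈ D, G.Adj u v

/-- The domination number `γ(G)`. -/
noncomputable def dominationNumber {V : Type} (G : SimpleGraph V) : ℕ :=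
  sInf {c : ℕ | ∃ D : Finset V, Dominating G D ∧ D.card = c}

/-- The diagonals of a square. -/
def diag (k : ℕ) {n : ℕ} (v : Fin k × Fin n) : ℕ × ℕ := (v.1.val + v.2.val, v.2.val + (k - 1 - v.1.val))

theorem diag_on {k n : ℕ} (v : Fin k × Fin n) : On k n (diag k v).1 (diag k v).2 := by
  have h1 := v.1.2
  have h2 := v.2.2
  unfold On diag
  simp only
  omega

theorem class_bound {k n c : ℕ} (hk : 1 ≤ k) (hn : 2 * k < n) (hc : c < 2)
    (D : Finset (Fin k × Fin n)) (hD : Dominating (bishops k n) D) :
    n + k ≤ 3 * (D.filter fun v => (v.1.val + v.2.val) % 2 = c).card + 2 := by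
  classical
  have h1 := core hk hn hc ((D.filter fun v => (v.1.val + v.2.val) % 2 = c).image (diag k))
    (by
      intro p hp
      obtain ⟨v, _, rfl⟩ := Finset.mem_image.1 hp
      exact diag_on v)
    (by
      intro a b ha hab
      unfold On at hab
      have hi : (a + k - 1 - b) / 2 < k := by omega
      have hj : (a + b + 1 - k) / 2 < n := by omega
      set v : Fin k × Fin n := (⟨(a + k - 1 - b) / 2, hi⟩, ⟨(a + b + 1 - k) / 2, hj⟩) with hv
      have hva : (diag k v).1 = a := by
        unfold diag
        rw [hv]
        simp only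
        omega
      have hvb : (diag k v).2 = b := by
        unfold diag
        rw [hv]
        simp only
        omega
      by_cases hmem : v ∈ D
      · left
        refine ⟨diag k v, Finset.mem_image.2 ⟨v, Finset.mem_filter.2 ⟨hmem, ?_⟩, rfl⟩, hva⟩
        change (diag k v).1 % 2 = c
        rw [hva]
        exact ha
      · obtain ⟨u, hu, hne, hadj⟩ := hD v hmem
        have hu1 := u.1.2
        have hv1 := v.1.2
        rcases abs_eq_abs.1 hadj with h | h
        · right
          have hb : (diag k u).2 = (diag k v).2 := by
            unfold diag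
            simp only
            omega
          refine ⟨diag k u, Finset.mem_image.2 ⟨u, Finset.mem_filter.2 ⟨hu, ?_⟩, rfl⟩, hb.trans hvb⟩
          have : (v.1.val + v.2.val) % 2 = c := by
            change (diag k v).1 % 2 = c
            rw [hva]
            exact ha
          omega
        · left
          have hb : (diag k u).1 = (diag k v).1 := by
            unfold diag
            simp only
            omega
          refine ⟨diag k u, Finset.mem_image.2 ⟨u, Finset.mem_filter.2 ⟨hu, ?_⟩, rfl⟩, hb.trans hva⟩
          change (diag k u).1 % 2 = c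
          rw [hb, hva]
          exact ha)
  have h2 := Finset.card_image_le (s := D.filter fun v => (v.1.val + v.2.val) % 2 = c)
    (f := diag k)
  omega

theorem dominating_card {k n : ℕ} (hk : 1 ≤ k) (hn : 2 * k < n) (D : Finset (Fin k × Fin n))
    (hD : Dominating (bishops k n) D) : 2 * ((k + n) / 3) ≤ D.card := by
  classical
  have h0 := class_bound hk hn (c := 0) (by omega) D hD
  have h1 := class_bound hk hn (c := 1) (by omega) D hD
  have h2 : (D.filter fun v => (v.1.val + v.2.val) % 2 = 0).card +
      (D.filter fun v => (v.1.val + v.2.val) % 2 = 1).card = D.card := by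
    rw [← Finset.card_union_of_disjoint]
    · congr 1
      ext v
      simp only [Finset.mem_union, Finset.mem_filter]
      constructor
      · rintro (h | h) <;> exact h.1
      · intro h
        rcases Nat.mod_two_eq_zero_or_one (v.1.val + v.2.val) with h3 | h3
        · exact Or.inl ⟨h, h3⟩
        · exact Or.inr ⟨h, h3⟩
    · rw [Finset.disjoint_left]
      intro v hv hv2
      have h3 := (Finset.mem_filter.1 hv).2
      have h4 := (Finset.mem_filter.1 hv2).2
      omega
  omega

/-- For `2 < 2k < n` the domination number of the bishops graph `B_{k,n}` is at least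
`2 ⌊(k + n) / 3⌋`. -/
theorem result : ∀ k n : ℕ, 2 < 2 * k → 2 * k < n →
    2 * ((k + n) / 3) ≤ dominationNumber (bishops k n) := by
  intro k n hk hn
  have hne : {c : ℕ | ∃ D : Finset (Fin k × Fin n), Dominating (bishops k n) D ∧ D.card = c}.Nonempty :=
    ⟨_, Finset.univ, fun v hv => absurd (Finset.mem_univ v) hv, rfl⟩
  obtain ⟨D, hD, hc⟩ := Nat.sInf_mem hne
  unfold dominationNumber
  rw [← hc]
  exact dominating_card (by omega) hn D hD

end Pool.Agent.Results.MP_8e2e71_co.LowerBound
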